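import Mathlib

/-!
# Infinite `(t+1)`-transitive groups that are not `t`-set primitive: definitions

`c : Finset ℕ → ℕ` is a colouring of the finite subsets of `ℕ` (only the colours of the
`t`-element sets matter).  The colour classes are the classes of an equivalence relation on
`t`-sets.
-/

namespace Pool.Agent.N709.ST

/-- the set of colours of the `t`-subsets of `Y` -/
def cs (t : ℕ) (c : Finset ℕ → ℕ) (Y : Finset ℕ) : Finset ℕ := (Y.powersetCard t).image c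

/-- the predimension `|Y| - (t-s) * (number of t-subsets of Y - number of their colours)` -/
def dl (s t : ℕ) (c : Finset ℕ → ℕ) (Y : Finset ℕ) : ℤ :=
  (Y.card : ℤ) - ((t : ℤ) - s) * ((Y.card.choose t : ℤ) - ((cs t c Y).card : ℤ))

/-- `A` with the colouring `c` belongs to the amalgamation class -/
def Good (s t : ℕ) (c : Finset ℕ → ℕ) (A : Finset ℕ) : Prop :=
  ∀ Y ⊆ A, min (Y.card : ℤ) ((t : ℤ) + 1) ≤ dl s t c Y

/-- `C` is a strong subset of `A` -/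
def Str (s t : ℕ) (c : Finset ℕ → ℕ) (C A : Finset ℕ) : Prop :=
  C ⊆ A ∧ ∀ Y, C ⊆ Y → Y ⊆ A → dl s t c C ≤ dl s t c Y

/-- `C` is a strong subset of `ℕ` -/
def StrM (s t : ℕ) (c : Finset ℕ → ℕ) (C : Finset ℕ) : Prop :=
  ∀ Y, C ⊆ Y → dl s t c C ≤ dl s t c Y

/-- `f` is an isomorphism of `(B, c)` onto `(f(B), c')` -/
def Iso (t : ℕ) (c c' : Finset ℕ → ℕ) (f : ℕ → ℕ) (B : Finset ℕ) : Prop :=
  Set.InjOn f (B : Set ℕ) ∧ ∀ S ⊆ B, ∀ S' ⊆ B, S.card = t → S'.card = t →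
    (c' (S.image f) = c' (S'.image f) ↔ c S = c S')

/-- no forced identification between `B` and `A` over `p : C → A` -/
def NoConf (s t : ℕ) (cB cA : Finset ℕ → ℕ) (p : ℕ → ℕ) (C B A : Finset ℕ) : Prop :=
  ∀ S' ⊆ B, S'.card = t → ¬ S' ⊆ C → ∀ S ⊆ A, S.card = t → ¬ S ⊆ C.image p →
    ∀ T ⊆ C, T.card = t → cB S' = cB T → cA S = cA (T.image p) →
      (S ∩ (S' ∩ C).image p).card < s

/-- `(A', c')` extends `(A, c)` strongly -/
def Ext (s t : ℕ) (c : Finset ℕ → ℕ) (A : Finset ℕ) (c' : Finset ℕ → ℕ) (A' : Finset ℕ) : Prop :=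
  A ⊆ A' ∧ (∀ S ⊆ A, S.card = t → c' S = c S) ∧ Good s t c' A' ∧ Str s t c' A A'

/-- the task `(B, C, p)` can be posed at the stage `(A, c)` -/
def Valid (s t : ℕ) (c : Finset ℕ → ℕ) (A B C : Finset ℕ) (p : ℕ → ℕ) : Prop :=
  C ⊆ B ∧ Str s t c B A ∧ Str s t c C A ∧ Str s t c (C.image p) A ∧ Iso t c c p C

/-- the task `(B, C, p)` is solved at the stage `(A, c)` -/
def Done (s t : ℕ) (c : Finset ℕ → ℕ) (A B C : Finset ℕ) (p : ℕ → ℕ) : Prop :=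
  ∃ f : ℕ → ℕ, (∀ x ∈ C, f x = p x) ∧ Iso t c c f B ∧ Str s t c (B.image f) A

/-- the colour `c` on `ℕ` is generic -/
def Gen (s t : ℕ) (c : Finset ℕ → ℕ) : Prop :=
  (∀ Y : Finset ℕ, min (Y.card : ℤ) ((t : ℤ) + 1) ≤ dl s t c Y) ∧
  (∀ (B C : Finset ℕ) (p : ℕ → ℕ), C ⊆ B → StrM s t c B → StrM s t c C →
    StrM s t c (C.image p) → Iso t c c p C →
    ∃ f : ℕ → ℕ, (∀ x ∈ C, f x = p x) ∧ Iso t c c f B ∧ StrM s t c (B.image f)) ∧
  (∃ S S' : Finset ℕ, S.card = t ∧ S'.card = t ∧ (S ∩ S').card = s - 1 ∧ S ≠ S' ∧ c S = c S')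

end Pool.Agent.N709.ST
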