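import Pool.Agent.N709.ST.Defs

/-!
# Statements (as `Prop`s) of the steps of the project ST
-/

namespace Pool.Agent.N709.ST

/-- submodularity of the predimension -/
def Submod : Prop := ∀ (s t : ℕ), s ≤ t → ∀ (c : Finset ℕ → ℕ) (Y Z : Finset ℕ),
  dl s t c (Y ∪ Z) + dl s t c (Y ∩ Z) ≤ dl s t c Y + dl s t c Z

/-- invariance of the predimension under isomorphisms, and inverses -/
def IsoDl : Prop := ∀ (t : ℕ) (c c' : Finset ℕ → ℕ) (f : ℕ → ℕ) (B : Finset ℕ), Iso t c c' f B →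
  (∀ s : ℕ, ∀ Y ⊆ B, dl s t c' (Y.image f) = dl s t c Y) ∧
  ∃ g : ℕ → ℕ, Iso t c' c g (B.image f) ∧ (∀ x ∈ B, g (f x) = x) ∧ (B.image f).image g = B

/-- an old colour on a new set: exactly one coincidence -/
def Coinc : Prop := ∀ (s t : ℕ), s < t → ∀ (c : Finset ℕ → ℕ) (A C S T : Finset ℕ),
  Str s t c C A → S ⊆ A → S.card = t → ¬ S ⊆ C → T ⊆ C → T.card = t → c S = c T →
  s ≤ (S ∩ C).card →
  (S ∩ C).card = s ∧ dl s t c (C ∪ S) = dl s t c C ∧ Str s t c (C ∪ S) A ∧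
  ∀ S₁ ⊆ C ∪ S, ∀ S₂ ⊆ C ∪ S, S₁.card = t → S₂.card = t → c S₁ = c S₂ → S₁ ≠ S₂ →
    (S₁ ⊆ C ∨ S₁ = S) ∧ (S₂ ⊆ C ∨ S₂ = S)

/-- if there is a conflict, the isomorphism can be extended -/
def Merge : Prop := Coinc → ∀ (s t : ℕ), s < t → ∀ (cB cA : Finset ℕ → ℕ) (p : ℕ → ℕ)
  (C B A : Finset ℕ), Str s t cB C B → Str s t cA (C.image p) A → Iso t cB cA p C →
  ¬ NoConf s t cB cA p C B A →
  ∃ (C' : Finset ℕ) (p' : ℕ → ℕ), C ⊂ C' ∧ (∀ x ∈ C, p' x = p x) ∧ Str s t cB C' B ∧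
    Str s t cA (C'.image p') A ∧ Iso t cB cA p' C'

/-- free amalgam, counting: a colouring of `A ∪ f(B)` -/
def FreeCol : Prop := ∀ (t : ℕ) (cB cA : Finset ℕ → ℕ) (p : ℕ → ℕ) (C B A : Finset ℕ),
  C ⊆ B → C.image p ⊆ A → Iso t cB cA p C →
  ∃ (c' : Finset ℕ → ℕ) (f : ℕ → ℕ), (∀ x ∈ C, f x = p x) ∧ Iso t cB c' f B ∧
    A ∩ B.image f = C.image p ∧
    (∀ S ⊆ A, S.card = t → c' S = cA S) ∧
    -- common colours of a subset of `A` and a subset of `f(B)` come from `C`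
    (∀ S' ⊆ B, S'.card = t → ¬ S' ⊆ C → ∀ S ⊆ A, S.card = t → c' (S'.image f) = c' S →
      ∃ T ⊆ C, T.card = t ∧ cB S' = cB T ∧ cA S = cA (T.image p)) ∧
    -- the mixed sets have private colours
    (∀ S ⊆ A ∪ B.image f, S.card = t → ¬ S ⊆ A → ¬ S ⊆ B.image f →
      ∀ S₁ ⊆ A ∪ B.image f, S₁.card = t → c' S = c' S₁ → S = S₁)

/-- the predimension of a set of the amalgam containing the base -/
def FreeDl : Prop := ∀ (s t : ℕ) (c : Finset ℕ → ℕ) (A E D : Finset ℕ), A ∩ E = D →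
  (∀ S' ⊆ E, S'.card = t → ¬ S' ⊆ A → ∀ S ⊆ A, S.card = t → c S' = c S →
      ∃ T ⊆ D, T.card = t ∧ c S = c T) →
  (∀ S ⊆ A ∪ E, S.card = t → ¬ S ⊆ A → ¬ S ⊆ E →
      ∀ S₁ ⊆ A ∪ E, S₁.card = t → c S = c S₁ → S = S₁) →
  ∀ Y, D ⊆ Y → Y ⊆ A ∪ E →
    dl s t c Y = dl s t c (Y ∩ A) + dl s t c (Y ∩ E) - dl s t c D

/-- the free amalgam is in the class -/
def FreeGood : Prop := Submod → ∀ (s t : ℕ), s < t → ∀ (c : Finset ℕ → ℕ) (A E : Finset ℕ),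
  Good s t c A → Good s t c E → Str s t c A (A ∪ E) → Str s t c E (A ∪ E) →
  (∀ S' ⊆ E, S'.card = t → ¬ S' ⊆ A → ∀ S ⊆ A, S.card = t → ¬ S ⊆ E → c S' = c S →
      (S ∩ S').card < s) →
  (∀ S ⊆ A ∪ E, S.card = t → ¬ S ⊆ A → ¬ S ⊆ E →
      ∀ S₁ ⊆ A ∪ E, S₁.card = t → c S = c S₁ → S = S₁) →
  Good s t c (A ∪ E)

/-- free amalgamation -/
def FreeAm : Prop := ∀ (s t : ℕ), s < t → ∀ (cB cA : Finset ℕ → ℕ) (p : ℕ → ℕ)
  (C B A : Finset ℕ), Good s t cA A → Good s t cB B → Str s t cB C B →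
  Str s t cA (C.image p) A → Iso t cB cA p C → NoConf s t cB cA p C B A →
  ∃ (A' : Finset ℕ) (c' : Finset ℕ → ℕ) (f : ℕ → ℕ), Ext s t cA A c' A' ∧
    (∀ x ∈ C, f x = p x) ∧ Iso t cB c' f B ∧ Str s t c' (B.image f) A'

/-- reduction of `FreeAm` to its parts -/
def FreeAmOf : Prop := Submod → IsoDl → FreeCol → FreeDl → FreeGood → FreeAm

/-- amalgamation -/
def Amalg : Prop := ∀ (s t : ℕ), s < t → ∀ (cB cA : Finset ℕ → ℕ) (p : ℕ → ℕ)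
  (C B A : Finset ℕ), Good s t cA A → Good s t cB B → Str s t cB C B →
  Str s t cA (C.image p) A → Iso t cB cA p C →
  ∃ (A' : Finset ℕ) (c' : Finset ℕ → ℕ) (f : ℕ → ℕ), Ext s t cA A c' A' ∧
    (∀ x ∈ C, f x = p x) ∧ Iso t cB c' f B ∧ Str s t c' (B.image f) A'

/-- one new point -/
def OnePt : Prop := ∀ (s t : ℕ), s < t → ∀ (c : Finset ℕ → ℕ) (A : Finset ℕ) (x : ℕ),
  Good s t c A → ∃ c' : Finset ℕ → ℕ, Ext s t c A c' (insert x A)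

/-- the first stage -/
def Start : Prop := ∀ (s t : ℕ), 1 ≤ s → s < t → ∃ (A : Finset ℕ) (c : Finset ℕ → ℕ)
  (S S' : Finset ℕ), Good s t c A ∧ S ⊆ A ∧ S' ⊆ A ∧ S.card = t ∧ S'.card = t ∧
    (S ∩ S').card = s - 1 ∧ S ≠ S' ∧ c S = c S'

/-- the chain of stages -/
def Chain : Prop := ∀ (s t : ℕ), s < t →
  (∀ (c : Finset ℕ → ℕ) (A : Finset ℕ) (n : ℕ) (B C : Finset ℕ) (p : ℕ → ℕ), Good s t c A →
    ∃ (c' : Finset ℕ → ℕ) (A' : Finset ℕ), Ext s t c A c' A' ∧ n ∈ A' ∧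
      (Valid s t c A B C p → Done s t c' A' B C p)) →
  ∀ (c₀ : Finset ℕ → ℕ) (A₀ : Finset ℕ), Good s t c₀ A₀ →
  ∃ (A : ℕ → Finset ℕ) (c : ℕ → Finset ℕ → ℕ), A 0 = A₀ ∧ c 0 = c₀ ∧
    (∀ n, Ext s t (c n) (A n) (c (n + 1)) (A (n + 1))) ∧ (∀ n, n ∈ A (n + 1)) ∧
    (∀ (B C : Finset ℕ) (p : ℕ → ℕ) (m : ℕ), ∃ n ≥ m,
      Valid s t (c n) (A n) B C p → Done s t (c (n + 1)) (A (n + 1)) B C p)

/-- the limit of the chain is generic -/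
def Limit : Prop := Submod → ∀ (s t : ℕ), s < t →
  ∀ (A : ℕ → Finset ℕ) (c : ℕ → Finset ℕ → ℕ), Good s t (c 0) (A 0) →
  (∃ S S' : Finset ℕ, S ⊆ A 0 ∧ S' ⊆ A 0 ∧ S.card = t ∧ S'.card = t ∧
    (S ∩ S').card = s - 1 ∧ S ≠ S' ∧ c 0 S = c 0 S') →
  (∀ n, Ext s t (c n) (A n) (c (n + 1)) (A (n + 1))) → (∀ n, n ∈ A (n + 1)) →
  (∀ (B C : Finset ℕ) (p : ℕ → ℕ) (m : ℕ), ∃ n ≥ m,
      Valid s t (c n) (A n) B C p → Done s t (c (n + 1)) (A (n + 1)) B C p) →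
  ∃ c' : Finset ℕ → ℕ, Gen s t c'

/-- existence of a generic colouring -/
def GenExists : Prop := ∀ (s t : ℕ), 1 ≤ s → s < t → ∃ c : Finset ℕ → ℕ, Gen s t c

/-- abstract back and forth -/
def BackForth : Prop := ∀ (P : Finset ℕ → (ℕ → ℕ) → Prop),
  (∀ C f, P C f → Set.InjOn f (C : Set ℕ)) →
  (∀ C f x, P C f → ∃ C' f', P C' f' ∧ C ⊆ C' ∧ x ∈ C' ∧ ∀ y ∈ C, f' y = f y) →
  (∀ C f x, P C f → ∃ C' f', P C' f' ∧ C ⊆ C' ∧ x ∈ C'.image f' ∧ ∀ y ∈ C, f' y = f y) →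
  ∀ C₀ f₀, P C₀ f₀ → ∃ g : Equiv.Perm ℕ, (∀ x ∈ C₀, g x = f₀ x) ∧
    ∀ X : Finset ℕ, ∃ C f, P C f ∧ X ⊆ C ∧ ∀ x ∈ C, g x = f x

/-- isomorphisms between finite strong sets extend to automorphisms -/
def Homog : Prop := ∀ (s t : ℕ), s < t → ∀ c : Finset ℕ → ℕ, Gen s t c →
  ∀ (C : Finset ℕ) (p : ℕ → ℕ), StrM s t c C → StrM s t c (C.image p) → Iso t c c p C →
  ∃ g : Equiv.Perm ℕ, (∀ x ∈ C, g x = p x) ∧
    ∀ S S' : Finset ℕ, S.card = t → S'.card = t →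
      (c (S.image g) = c (S'.image g) ↔ c S = c S')

/-- reduction of `Homog` -/
def HomogOf : Prop := IsoDl → BackForth → Homog

/-- the final theorem -/
def Main : Prop := ∀ (s t : ℕ), 1 ≤ s → s < t → ∃ G : Subgroup (Equiv.Perm ℕ),
  (∀ x y : Fin (t + 1) → ℕ, Function.Injective x → Function.Injective y →
    ∃ g ∈ G, ∀ i, g (x i) = y i) ∧
  ∃ 𝓢 : Set (Finset ℕ), (∀ S ∈ 𝓢, S.card = t) ∧
    (∀ g ∈ G, (fun S : Finset ℕ => S.image g) '' 𝓢 = 𝓢 ∨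
      Disjoint ((fun S : Finset ℕ => S.image g) '' 𝓢) 𝓢) ∧
    (∀ U : Finset ℕ, U.card = s → ∃! S : Finset ℕ, S ∈ 𝓢 ∧ U ⊆ S)

/-- the final theorem from a generic colouring -/
def MainOf : Prop := GenExists → Homog → Main

end Pool.Agent.N709.ST
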